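import Pool.Agent.H79.BN.Targets2

/-!
# Bounces in a corner
-/

set_option autoImplicit false

open MeasureTheory Set Filter Topology Pool.Agent.H93.BL Pool.Agent.H79.BN

namespace Pool.Agent.H55.BN

theorem f4 (h0 : T_V0) (h1 : T_V1) (hrk : T_RK) (hf0 : T_F0) (hf1 : T_F1) (hf2 : T_F2) :
    T_F4 := by
  intro n _ w E hn hw i S hS y t m hy1 hy2 ht ht0 ht1 htm
  obtain ⟨ph0, phpi, -, -, -, -⟩ := hf1 n w hn hw i
  set ph := ang w i with hph
  have hs : i + 1 - 1 = i := (h0 n hn i).2.2.2.2.2.2.1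
  have hne : ∀ j, 0 < ‖ed w j‖ := fun j => norm_pos_iff.2 ((h1 n w hn hw).1 j)
  -- from a line to its vertex
  have hAb : ∀ z : ℝ, AbL w E (w (i + 1)) (dx w i z) → ∀ c : ℝ, 0 < c →
      Ab w E (w (i + 1)) ((c : ℂ) * dx w i z) := by
    intro z hz c hc
    have e1 := hz 0
    rw [Complex.ofReal_zero, zero_mul, add_zero] at e1
    refine hf0 n w E (w (i + 1)) ((c : ℂ) * dx w i z) c⁻¹ (inv_pos.2 hc) ?_
    rw [← mul_assoc, ← Complex.ofReal_mul, inv_mul_cancel₀ hc.ne', Complex.ofReal_one, one_mul]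
    exact e1
  have hB : ∀ z : ℝ, ph < z → z < Real.pi → AbL w E (w (i + 1)) (dx w i (2 * ph - z)) →
      AbL w E (w (i + 1)) (dx w i z) := by
    intro z hz1 hz2 hz
    obtain ⟨-, f1, f2, -, f3, -⟩ := hf2 n w hn hw i z z
    have r := (hrk n w E (dx w i z) (i + 1) hn hw).2
    rw [hs] at r
    refine r ?_ ?_ (Or.inr ?_)
    · rw [f2]
      exact mul_neg_of_pos_of_neg (hne _)
        (Real.sin_neg_of_neg_of_neg_pi_lt (by linarith) (by linarith))
    · rw [f1]
      exact mul_pos (hne _) (Real.sin_pos_of_pos_of_lt_pi (by linarith) hz2)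
    · rw [f3]
      exact hAb _ hz _ (pow_pos (hne _) 2)
  have hC : ∀ z : ℝ, ph - Real.pi < z → z < 0 → AbL w E (w (i + 1)) (dx w i (-z)) →
      AbL w E (w (i + 1)) (dx w i z) := by
    intro z hz1 hz2 hz
    obtain ⟨-, f1, f2, f3, -⟩ := hf2 n w hn hw i z z
    have r := (hrk n w E (dx w i z) (i + 1) hn hw).1
    rw [hs] at r
    refine r ?_ ?_ (Or.inr ?_)
    · rw [f2]
      exact mul_pos (hne _) (Real.sin_pos_of_pos_of_lt_pi (by linarith) (by linarith))
    · rw [f1]
      exact mul_neg_of_pos_of_neg (hne _)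
        (Real.sin_neg_of_neg_of_neg_pi_lt hz2 (by linarith))
    · rw [f3]
      exact hAb _ hz _ (pow_pos (hne _) 2)
  -- the fold condition
  have hA : ∀ z : ℝ, 0 ≤ z → z ≤ ph → (∃ m : ℤ, t = z + 2 * m * ph ∨ t = -z + 2 * m * ph) →
      AbL w E (w (i + 1)) (dx w i z) := by
    rintro z hz0 hz1 ⟨m, hm⟩
    have hzt : z = t := by
      rcases lt_trichotomy m 0 with h | h | h
      · have e1 : (m : ℝ) ≤ -1 := by exact_mod_cast (by omega : m ≤ -1)
        have e2 : (m : ℝ) * ph ≤ -1 * ph := mul_le_mul_of_nonneg_right e1 ph0.le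
        rcases hm with hm | hm <;> nlinarith
      · subst h
        rcases hm with hm | hm
        · simp at hm
          exact hm.symm
        · simp at hm
          linarith
      · rcases hm with hm | hm
        · have e1 : (1 : ℝ) ≤ m := by exact_mod_cast (by omega : 1 ≤ m)
          have e2 : 1 * ph ≤ (m : ℝ) * ph := mul_le_mul_of_nonneg_right e1 ph0.le
          nlinarith
        · rcases (by omega : m = 1 ∨ 2 ≤ m) with h2 | h2
          · subst h2
            rw [Int.cast_one, mul_one] at hm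
            linarith
          · have e1 : (2 : ℝ) ≤ m := by exact_mod_cast h2
            have e2 : 2 * ph ≤ (m : ℝ) * ph := mul_le_mul_of_nonneg_right e1 ph0.le
            nlinarith
    rw [hzt]
    exact hS t ht ht0 ht1
  have hN : ∀ (N : ℕ) (z : ℝ), 0 ≤ z → z < Real.pi → z ≤ N * ph →
      (∃ m : ℤ, t = z + 2 * m * ph ∨ t = -z + 2 * m * ph) →
      AbL w E (w (i + 1)) (dx w i z) := by
    intro N
    induction N with
    | zero =>
      intro z hz0 _ hz1 hz
      rw [Nat.cast_zero, zero_mul] at hz1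
      exact hA z hz0 (by linarith) hz
    | succ N ih =>
      intro z hz0 hz1 hz2 hz
      rcases le_or_gt z ph with h | h
      · exact hA z hz0 h hz
      · apply hB z h hz1
        obtain ⟨m, hm⟩ := hz
        rcases le_or_gt 0 (2 * ph - z) with h2 | h2
        · refine hA _ h2 (by linarith) ?_
          rcases hm with hm | hm
          · exact ⟨m + 1, Or.inr (by push_cast; linarith)⟩
          · exact ⟨m - 1, Or.inl (by push_cast; linarith)⟩
        · refine hC _ (by linarith) h2 ?_
          refine ih _ (by linarith) (by linarith) ?_ ?_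
          · push_cast at hz2
            linarith
          · rcases hm with hm | hm
            · exact ⟨m + 1, Or.inl (by push_cast; linarith)⟩
            · exact ⟨m - 1, Or.inr (by push_cast; linarith)⟩
  have hF : ∀ z : ℝ, 0 ≤ z → z < Real.pi →
      (∃ m : ℤ, t = z + 2 * m * ph ∨ t = -z + 2 * m * ph) →
      AbL w E (w (i + 1)) (dx w i z) := by
    intro z hz0 hz1 hz
    obtain ⟨N, hN'⟩ := exists_nat_ge (z / ph)
    exact hN N z hz0 hz1 ((div_le_iff₀ ph0).1 hN') hz
  rcases le_or_gt 0 y with h | h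
  · exact hF y h hy2 ⟨m, htm⟩
  · refine hC y hy1 h (hF (-y) (by linarith) (by linarith) ⟨m, ?_⟩)
    rcases htm with hm | hm
    · exact Or.inr (by linarith)
    · exact Or.inl hm

end Pool.Agent.H55.BN
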